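import Pool.Agent.Lib.MP_b07157_agW.WS
import Pool.Agent.Lib.MP_b07157_agU.Bridge
import Pool.Agent.Lib.MP_b07157_agE.EG
import Pool.Agent.Lib.MP_b07157_agM.TDefs

/-!
# Cones over projective hypersurfaces with isolated quasi-homogeneous singularities
-/

noncomputable section

namespace MPb07157

open MvPolynomial

namespace CQ

variable {k : ℕ}

/-- The line through `b`, `b_j ≠ 0`, without the origin. -/
def LineS (b : Fin (k + 1) → ℂ) (j : Fin (k + 1)) : Set (Fin (k + 1) → ℂ) :=
  {p | eval p (X j : MvPolynomial (Fin (k + 1)) ℂ) ≠ 0 ∧ ∀ i ∈ (Finset.univ : Finset (Fin (k + 1))),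
    eval p (C (b j) * X i - C (b i) * X j : MvPolynomial (Fin (k + 1)) ℂ) = 0}

theorem isConstr_lineS (b : Fin (k + 1) → ℂ) (j : Fin (k + 1)) : IsConstr (LineS b j) :=
  isConstr_setOf_and (isConstr_ne_zero _) (isConstr_forall_mem _ _ fun _ _ => isConstr_eq_zero _)

theorem eval_chartEq (f : MvPolynomial (Fin (k + 1)) ℂ) (q : Fin (k + 1) → ℂ) (j : Fin (k + 1))
    (y : Fin k → ℂ) : eval y (YQ.chartEq f q j) =
      eval (j.insertNth (α := fun _ => ℂ) 1 fun i => y i + q (j.succAbove i)) f := by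
  unfold YQ.chartEq
  have h1 : ((aeval y : MvPolynomial (Fin k) ℂ →ₐ[ℂ] ℂ).comp
      (aeval (j.insertNth (α := fun _ => MvPolynomial (Fin k) ℂ) 1
        fun i => X i + C (q (j.succAbove i))))) =
      aeval (j.insertNth (α := fun _ => ℂ) 1 fun i => y i + q (j.succAbove i)) := by
    refine MvPolynomial.algHom_ext fun i => ?_
    rw [AlgHom.comp_apply, aeval_X, aeval_X]
    refine j.succAboveCases ?_ (fun i => ?_) i
    · rw [Fin.insertNth_apply_same, Fin.insertNth_apply_same, map_one]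
    · rw [Fin.insertNth_apply_succAbove, Fin.insertNth_apply_succAbove, map_add, aeval_X, aeval_C]
      rfl
  have h2 := DFunLike.congr_fun h1 f
  rw [AlgHom.comp_apply, MvPolynomial.aeval_eq_eval, MvPolynomial.aeval_eq_eval] at h2
  exact h2

theorem trivAlong_line {f : MvPolynomial (Fin (k + 1)) ℂ} {d : ℕ} (hh : f.IsHomogeneous d)
    {b q : Fin (k + 1) → ℂ} {j : Fin (k + 1)} (hbj : b j ≠ 0) (hq : ∀ i, b j * q i = b i) :
    TrivAlong f (LineS b j) (YQ.chartEq f q j) := by
  classical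
  have hqj : q j = 1 := by
    have h1 := hq j
    field_simp at h1
    exact h1
  refine ⟨fun l => X (j.succAbove l) - C (q (j.succAbove l)) * X j, 1, X j ^ d, X j,
    fun x hx => ?_, fun p hp => ?_⟩
  · rw [eval_X] at hx
    rw [map_one, one_mul, map_pow, eval_X, eval_chartEq]
    have h1 : (x : Fin (k + 1) → ℂ) = x j • (j.insertNth (α := fun _ => ℂ) 1
        (fun i => eval x (X (j.succAbove i) - C (q (j.succAbove i)) * X j) / x j +
          q (j.succAbove i))) := by
      funext i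
      rw [Pi.smul_apply, smul_eq_mul]
      refine j.succAboveCases ?_ (fun i => ?_) i
      · rw [Fin.insertNth_apply_same, mul_one]
      · rw [Fin.insertNth_apply_succAbove, map_sub, map_mul, eval_X, eval_X, eval_C]
        field_simp
        ring
    conv_lhs => rw [h1]
    rw [eval_smul_of_homog hh]
  · obtain ⟨hp1, hp2⟩ := hp
    rw [eval_X] at hp1
    refine ⟨by rw [map_one]; exact one_ne_zero, by rw [map_pow, eval_X]; exact pow_ne_zero _ hp1,
      by rwa [eval_X], fun l => ?_, ?_⟩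
    · have h1 := hp2 (j.succAbove l) (Finset.mem_univ _)
      rw [map_sub, map_mul, map_mul, eval_C, eval_C, eval_X, eval_X] at h1
      rw [map_sub, map_mul, eval_X, eval_X, eval_C]
      have h2 := hq (j.succAbove l)
      refine mul_left_cancel₀ hbj ?_
      rw [mul_zero]
      linear_combination h1 - p j * h2
    · rw [Fintype.linearIndependent_iff]
      intro c hc l
      have h1 := congrFun hc (j.succAbove l)
      rw [Finset.sum_apply] at h1
      simp only [Pi.smul_apply, smul_eq_mul, Pi.zero_apply] at h1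
      rw [Finset.sum_eq_single l] at h1
      · rw [map_sub, pderiv_C_mul, pderiv_X_self, pderiv_X_of_ne (Fin.succAbove_ne j l).symm,
          mul_zero, sub_zero, map_one, mul_one] at h1
        exact h1
      · intro l' _ hl
        rw [map_sub, pderiv_C_mul, pderiv_X_of_ne (Fin.succAbove_ne j l).symm,
          pderiv_X_of_ne (fun h => hl (Fin.succAbove_right_injective h)), mul_zero,
          sub_zero, map_zero, mul_zero]
      · exact fun h => absurd (Finset.mem_univ l) h

/-- The smooth points of `f = 0` at which `∂_j f` is the first non-vanishing derivative. -/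
theorem trivAlong_WJ (f : MvPolynomial (Fin (k + 1)) ℂ) (j : Fin (k + 1)) :
    TrivAlong f (WJ f j) (X 0 : MvPolynomial (Fin 1) ℂ) := by
  refine ⟨fun _ => f, 1, 1, 1, fun x _ => ?_, fun p hp => ?_⟩
  · rw [map_one, eval_X, div_one, one_mul]
  · obtain ⟨hp1, -, hp2⟩ := hp
    refine ⟨by rw [map_one]; exact one_ne_zero, by rw [map_one]; exact one_ne_zero,
      by rw [map_one]; exact one_ne_zero, fun _ => hp1, ?_⟩
    refine LinearIndependent.of_subsingleton (0 : Fin 1) ?_
    intro h
    exact hp2 (congrFun h j)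

end CQ

open CQ in
/-- **Cones over projective hypersurfaces with isolated quasi-homogeneous singularities.** -/
theorem SmcLoc.of_coneQ {k : ℕ} {f : MvPolynomial (Fin (k + 1)) ℂ} (hf : f ≠ 0) {d : ℕ}
    (hd : 0 < d) (hh : f.IsHomogeneous d) (hiso : IsoLines f)
    (h : ∀ (q : Fin (k + 1) → ℂ) (j : Fin (k + 1)), q j = 1 →
      (∀ i, eval q (pderiv i f) = 0) → YQ.chartEq f q j ≠ 0 → coeff 0 (YQ.chartEq f q j) = 0 →
        SmcLoc (YQ.chartEq f q j)) : SmcLoc f := by
  classical
  obtain ⟨B, hB⟩ := hiso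
  have hcrit : ∀ (b : Fin (k + 1) → ℂ) (c : ℂ), c ≠ 0 → (∀ i, eval (c • b) (pderiv i f) = 0) →
      ∀ i, eval b (pderiv i f) = 0 := by
    intro b c hc h1 i
    have h2 := h1 i
    rw [eval_smul_of_homog hh.pderiv] at h2
    exact (mul_eq_zero.1 h2).resolve_left (pow_ne_zero _ hc)
  set T : Set (Set (Fin (k + 1) → ℂ)) := Set.range (WJ f) ∪
    {W | ∃ b ∈ B, ∃ j, b j ≠ 0 ∧ (∀ i, eval b (pderiv i f) = 0) ∧ W = LineS b j} with hTdef
  have hT : T.Finite := by
    refine (Set.finite_range _).union ?_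
    refine ((B.finite_toSet.prod (Set.finite_univ (α := Fin (k + 1)))).image
      (fun x => LineS x.1 x.2)).subset ?_
    rintro W ⟨b, hb, j, -, -, rfl⟩
    exact ⟨(b, j), ⟨hb, Set.mem_univ _⟩, rfl⟩
  refine smcLoc_cone_iso hf hd hh hT (fun p hp0 hpf => ?_)
    (P := fun k g => g ≠ 0 → coeff 0 g = 0 → SmcLoc g) (fun _ _ hg => hg) (fun W hW => ?_)
    ⟨B, hB⟩
  · by_cases hc : ∀ i, eval p (pderiv i f) = 0
    · obtain ⟨-, b, hb, c, rfl⟩ := hB p hp0 hc
      have hc0 : c ≠ 0 := by
        rintro rfl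
        exact hp0 (zero_smul _ _)
      have hb0 : b ≠ 0 := by
        rintro rfl
        exact hp0 (smul_zero _)
      obtain ⟨j, hj⟩ := Function.ne_iff.1 hb0
      refine ⟨LineS b j, Or.inr ⟨b, hb, j, hj, hcrit b c hc0 hc, rfl⟩, ?_, fun i _ => ?_⟩
      · rw [eval_X, Pi.smul_apply, smul_eq_mul]
        exact mul_ne_zero hc0 hj
      · rw [map_sub, map_mul, map_mul, eval_C, eval_C, eval_X, eval_X, Pi.smul_apply,
          Pi.smul_apply, smul_eq_mul, smul_eq_mul]
        ring
    · obtain ⟨j, hj⟩ := exists_mem_WJ hpf hc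
      exact ⟨WJ f j, Or.inl ⟨j, rfl⟩, hj⟩
  · rcases hW with ⟨j, rfl⟩ | ⟨b, hb, j, hj, hc, rfl⟩
    · exact ⟨isConstr_WJ f j, 1, X 0, fun _ _ => SU.smcLoc_X 0, trivAlong_WJ f j⟩
    · have hq : ∀ i, b j * ((b j)⁻¹ • b) i = b i := by
        intro i
        rw [Pi.smul_apply, smul_eq_mul, mul_inv_cancel_left₀ hj]
      refine ⟨isConstr_lineS b j, k, YQ.chartEq f ((b j)⁻¹ • b) j, ?_, trivAlong_line hh hj hq⟩
      refine h _ j ?_ ?_
      · rw [Pi.smul_apply, smul_eq_mul, inv_mul_cancel₀ hj]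
      · refine hcrit _ (b j) hj ?_
        rw [smul_smul, mul_inv_cancel₀ hj, one_smul]
        exact hc

end MPb07157
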