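import Pool.Agent.Lib.MP_b07157_agS.SClass
import Pool.Agent.Lib.MP_b07157_agM.MU
import Pool.Agent.Lib.MP_b07157_agM.MZ

/-!
# Products in separate variables
-/

noncomputable section

namespace MPb07157

open MvPolynomial

theorem SmcLoc.prodSep' {n m : ℕ} {f : MvPolynomial (Fin n) ℂ} {g : MvPolynomial (Fin m) ℂ}
    (hfg : MPb07157.prodSep f g ≠ 0) (hf : f ≠ 0 → coeff 0 f = 0 → SmcLoc f)
    (hg : g ≠ 0 → coeff 0 g = 0 → SmcLoc g) : SmcLoc (MPb07157.prodSep f g) := by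
  obtain ⟨hf', hg'⟩ := ne_zero_of_prodSep hfg
  refine SmcLoc.prodSep hf' hg' ?_ ?_
  · by_cases h1 : coeff 0 f = 0
    · exact hf hf' h1
    · exact smcLoc_of_coeff_ne h1
  · by_cases h1 : coeff 0 g = 0
    · exact hg hg' h1
    · exact smcLoc_of_coeff_ne h1

end MPb07157
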