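import Pool.Agent.Lib.MP_b07157_agS.SMain

/-!
# Hypersurfaces with isolated singularities
-/

noncomputable section

namespace MPb07157

open MvPolynomial

variable {n : ℕ}

/-- **The strong monodromy conjecture, global version**, for hypersurfaces with isolated
singularities, from the local version for the germs at the singular points. -/
theorem SmcGlob.of_isol {f : MvPolynomial (Fin n) ℂ} (hf : f ≠ 0) (h0 : coeff 0 f = 0)
    (hfin : {p : Fin n → ℂ | eval p f = 0 ∧ ∀ j, eval p (pderiv j f) = 0}.Finite)
    (h : ∀ p : Fin n → ℂ, eval p f = 0 → (∀ j, eval p (pderiv j f) = 0) →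
      translate p f ≠ 0 → coeff 0 (translate p f) = 0 → SmcLoc (translate p f)) : SmcGlob f := by
  intro s₀ hs hp b hb
  have h0' : (0 : Fin n →₀ ℕ) ∉ f.support := by rwa [notMem_support_iff]
  by_cases h1 : s₀ = -1
  · subst h1
    exact (roots_of_form (f := f) (s₀ := -1) fun b hb => neg_one_root hf h0' b hb).1 b hb
  obtain ⟨p, ⟨hp1, hp2⟩, hp3⟩ := exists_pole_of_isolated hf hfin h1 hp
  exact h p hp1 hp2 (translate_ne_zero hf p) (coeff_zero_translate hp1) s₀ hs hp3 b
    (form_translate p hb)

end MPb07157
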