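import Pool.Agent.Lib.MP_b07157_agO.QMain

/-!
# Quasi-ordinary germs in the class `StabLoc`
-/

noncomputable section

namespace MPb07157

open MvPolynomial

/-- **The strong monodromy conjecture, local version**, for quasi-ordinary germs: all formal
functional equations vanish at the negative poles of `Z_{f,0}`. -/
theorem SmcLoc.of_quasiOrd {d : ℕ} {f : MvPolynomial (Fin (d + 1)) ℂ} (hf : f ≠ 0)
    (h0 : coeff 0 f = 0) (h : QO.QuasiOrd f) : SmcLoc f :=
  QO.smcLoc_quasiOrd hf h0 h

end MPb07157
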