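import Pool.Agent.Lib.MP_b07157_agE.EDefs
import Pool.Agent.Lib.MP_b07157_agS.SE
import Pool.Agent.Lib.MP_b07157_agS.SDefs
import Pool.Agent.Lib.MP_b07157_agN.Fin
import Pool.Agent.Lib.MP_b07157_agM.CDefs
import Pool.Agent.Lib.MP_b07157_agSP.Defs
import Pool.Agent.Lib.MP_b07157_agSC.OrdDefs
import Pool.Agent.Lib.MP_b07157_agLT.Defs
import Pool.Agent.Lib.MP_b07157_agM.TDefs
import Pool.Agent.Lib.MP_b07157_agM.WCDefs
import Pool.Agent.Lib.MP_b07157_agH3.CThree
import Pool.Agent.Lib.MP_b07157_agO.MQ
import Pool.Agent.Lib.MP_b07157_agLC.MDefs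
import Pool.Agent.Lib.MP_b07157_agLC.WDefs
import Pool.Agent.Lib.MP_b07157_agSG3.TriDef3

/-!
# The final classes of stably non-degenerate germs and polynomials
-/

noncomputable section

namespace MPb07157

open MvPolynomial

/-- The function `|f|^(-7/4)` is integrable in a neighbourhood of `p` (this holds if the log canonical
threshold of `f` at `p` is greater than `7/8`, for example if it is one). -/
def LctPt {n : ℕ} (f : MvPolynomial (Fin n) ℂ) (p : Fin n → ℂ) : Prop :=
  ∃ r : ℝ, 0 < r ∧ MeasureTheory.IntegrableOn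
    (fun x : Fin n → ℂ => ‖eval x f‖ ^ (-(2 * (7 / 8 : ℝ)))) (Metric.ball p r)

/-- A condition on a homogeneous polynomial of degree `d` in `n` variables, at the number `-n/d`:

* `d = n`; or
* (`ConeRoot`) the log canonical threshold is `n / d`, or the partial derivatives have only relations
  generated by the linear ones while the linear vector fields which kill the polynomial have
  divergence zero, or `f^(-n/d)` is not a sum of derivatives, or the critical points outside the
  origin lie on finitely many lines, with a polynomial vector field which kills the polynomial and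
  does not vanish there, for each of them; or
* (`RankRoot`) `d ≥ n`, and at each critical zero `p ≠ 0` the Hessian matrix has rank at least two, or
  the multiplicity is at most `d / n`; or
* the projective hypersurface has only finitely many singular points, all of corank at most one. -/
def RootCond {n : ℕ} (f : MvPolynomial (Fin n) ℂ) (d : ℕ) : Prop :=
  d = n ∨ ConeRoot f d ∨ RankRoot f d ∨
    (YG.FinSing f ∧ ∀ q, SingPt f q → n ≤ (YG.hessAt f q).rank + 2)

/-- The smallest class of germs at the origin which contains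

* (`nondeg`) the polynomials that are non-degenerate on the compact faces of their Newton
  polyhedron;
* (`corank`) the germs of corank at most two: the Hessian matrix at the origin has rank at least
  `n - 2`;
* (`deg4`) the polynomials of degree at most four in three variables;
* (`quartic4`) the homogeneous polynomials of degree four in four variables;
* (`deg34`) the polynomials of degree at most three in four variables;
* (`sqh`) the polynomials whose initial part for some positive weights has no critical points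
  outside the origin (semi-quasi-homogeneous germs);
* (`susp`) the polynomials which in suitable formal coordinates are a unit times
  `g(x_1, x_2) + ∑ x_{i+2}^{e_i}`, `e_i ≥ 2`, for a power series `g`, `g(0) = 0` (all plane curve
  germs and their suspensions);
* (`sumG`, `sum3`, `sum3q`, `sum4`) the polynomials
  `g(x_1, …, x_k) + h_1(z_1) + ⋯ + h_r(z_r)`, where `r ≥ 0` is arbitrary, the `h_i` are not constant and
  one of the following conditions holds: `k ≥ 2` and the Hessian matrix of `g` at the origin has rank
  at least `k - 2` (no condition if `k = 2`), or the origin is not a critical point of `g`; `k = 3` and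
  `g` has degree at most three; `k = 3` and the terms of degree one or two of `g` do not vanish, or `g`
  satisfies `TriGerm3` (the part `c` of degree three is not zero, and `g` has degree at most four, or `c`
  is nodal, or the part of degree four does not vanish at the critical points of `c` outside the origin);
  `k = 4`, `g` has degree at most three and its terms of degree one or two do not vanish;
* (`qo`) the quasi-ordinary germs;
* (`arr`) the products of linear forms;
* (`tern`) the forms in three variables with the condition `CondThree`;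
* (`coneQ`) the homogeneous polynomials with finitely many singular points `q` in the projective
  space, `q_j = 1`, at which some polynomial vector field which kills the polynomial does not vanish
  (quasi-homogeneous singular points), and the restriction to `x_j = 1` has a germ in the class;
* (`wconeQ`) the weighted homogeneous polynomials (`WHom`) whose critical points outside the
  origin form finitely many orbits of `ℂ^*`, such that some polynomial vector field which kills the
  polynomial does not vanish there, and at representatives `q`, `q_j = 1`, of the orbits the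
  restriction to `x_j = 1` has a germ in the class;
* (`cone`) the homogeneous polynomials of degree `d` in `n` variables with the condition
  `RootCond` at `-n/d`, whose critical zeros outside the origin are covered by finitely many
  constructible sets, along each of which the polynomial is trivial with a germ in the class or a
  unit times a power of a semi-quasi-homogeneous polynomial (`SqhAlongPow`), by ordinary multiple
  points along smooth germs (`OrdMult`), and by points at which the Hessian matrix has rank at least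
  `n - 3`;
* (`cone4`) the homogeneous polynomials of degree `d` in four variables with the condition
  `RootCond` at `-4/d`, whose critical zeros outside the origin are covered by such sets, by ordinary
  multiple points along smooth germs, by points at which the surface in the projective space has a
  double point (the Hessian matrix is not zero) or a triple point with reduced tangent cone (the part
  of degree three of `f(p + x)` is squarefree), and by points at which the log canonical threshold is
  greater than `7/8` (`LctPt`);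
* (`lctCone`) the homogeneous polynomials in four variables with log canonical threshold
  greater than `7/8` at all critical zeros outside the origin (`LctPt`);
* (`wcone`) the weighted homogeneous polynomials with the conditions `WHom`, and `WRoot` or
  `WRankRoot` (the sum of the weights is at most `D`, and at each critical zero `p ≠ 0` the Hessian
  matrix has rank at least two, or the multiplicity is at most `D/∑ a_i`, or the log canonical
  threshold is greater than `∑ a_i/D`), whose critical points outside the origin are covered by finitely many constructible sets, along each of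
  which the polynomial is trivial with a germ in the class or a unit times a power of a
  semi-quasi-homogeneous polynomial (`SqhAlongPow`), by ordinary multiple points along smooth germs
  (`OrdMult`), by points at which the Hessian matrix has rank at least `n - 2`, and by finitely many
  orbits of `ℂ^*`, at whose points `q`, `q_j = 1`, the restriction to `x_j = 1` has a germ in the
  class;
* (`prod`) the products `f(x) g(y)` of two elements;
* (`stab`) `f`, if it contains `f + x_{n+1} x_{n+2}`;
* (`equiv`) `f`, if it contains some `g` such that `f` is a unit times a power of `g` in suitable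
  formal coordinates. -/
inductive StabLoc : (n : ℕ) → MvPolynomial (Fin n) ℂ → Prop
  | nondeg {n : ℕ} (f : MvPolynomial (Fin n) ℂ)
      (h : ∀ w : Fin n → ℕ, (∀ j, 0 < w j) → IsNondeg (initialPart f w)) : StabLoc n f
  | corank {n : ℕ} (f : MvPolynomial (Fin n) ℂ) (h : n ≤ (SU.hess f).rank + 2) : StabLoc n f
  | deg4 (f : MvPolynomial (Fin 3) ℂ) (h : f.totalDegree ≤ 4) : StabLoc 3 f
  | quartic4 (f : MvPolynomial (Fin 4) ℂ) (hh : f.IsHomogeneous 4) : StabLoc 4 f
  | deg34 (f : MvPolynomial (Fin 4) ℂ) (h : f.totalDegree ≤ 3) : StabLoc 4 f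
  | sqh {n : ℕ} (f : MvPolynomial (Fin n) ℂ) (w : Fin n → ℕ) (hw : ∀ i, 0 < w i)
      (h : ∀ p : Fin n → ℂ, p ≠ 0 → ∃ i, eval p (pderiv i (initialPart f w)) ≠ 0) : StabLoc n f
  | susp {r : ℕ} (f : MvPolynomial (Fin (2 + r)) ℂ)
      (E : MvPowerSeries (Fin (2 + r)) ℂ ≃ₐ[ℂ] MvPowerSeries (Fin (2 + r)) ℂ)
      (u : (MvPowerSeries (Fin (2 + r)) ℂ)ˣ) (g : MvPowerSeries (Fin 2) ℂ) (e : Fin r → ℕ)
      (he : ∀ i, 2 ≤ e i) (hg : MvPowerSeries.constantCoeff g = 0)
      (h : (f : MvPowerSeries (Fin (2 + r)) ℂ) = u * E (SU.suspP g e)) : StabLoc (2 + r) f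
  | sumG {n r : ℕ} (hn : 2 ≤ n) (g : MvPolynomial (Fin n) ℂ) (h : Fin r → Polynomial ℂ)
      (hh : ∀ i, 0 < (h i).natDegree)
      (hc : (∀ i, coeff 0 (pderiv i g) = 0) → n ≤ (YG.hessAt g 0).rank + 2) :
      StabLoc (n + r)
        (rename (Fin.castAdd r) g + ∑ i, Polynomial.aeval (X (Fin.natAdd n i)) (h i))
  | sum3 {r : ℕ} (g : MvPolynomial (Fin 3) ℂ) (hd : g.totalDegree ≤ 3) (h : Fin r → Polynomial ℂ)
      (hh : ∀ i, 0 < (h i).natDegree) :
      StabLoc (3 + r)
        (rename (Fin.castAdd r) g + ∑ i, Polynomial.aeval (X (Fin.natAdd 3 i)) (h i))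
  | sum3q {r : ℕ} (g : MvPolynomial (Fin 3) ℂ) (h : Fin r → Polynomial ℂ)
      (hh : ∀ i, 0 < (h i).natDegree)
      (hc : (∀ i, coeff 0 (pderiv i g) = 0) → YG.hessAt g 0 ≠ 0 ∨ TriGerm3 g) :
      StabLoc (3 + r)
        (rename (Fin.castAdd r) g + ∑ i, Polynomial.aeval (X (Fin.natAdd 3 i)) (h i))
  | sum4 {r : ℕ} (g : MvPolynomial (Fin 4) ℂ) (hd : g.totalDegree ≤ 3) (h : Fin r → Polynomial ℂ)
      (hh : ∀ i, 0 < (h i).natDegree)
      (hc : (∀ i, coeff 0 (pderiv i g) = 0) → YG.hessAt g 0 ≠ 0) :
      StabLoc (4 + r)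
        (rename (Fin.castAdd r) g + ∑ i, Polynomial.aeval (X (Fin.natAdd 4 i)) (h i))
  | qo {l : ℕ} (f : MvPolynomial (Fin (l + 1)) ℂ) (h : QO.QuasiOrd f) : StabLoc (l + 1) f
  | arr {n r : ℕ} (a : Fin r → Fin n → ℂ) (m : Fin r → ℕ) :
      StabLoc n (∏ j, (∑ i, C (a j i) * X i) ^ m j)
  | tern (f : MvPolynomial (Fin 3) ℂ) (d : ℕ) (hd : 0 < d) (hh : f.IsHomogeneous d)
      (h : CondThree f d) : StabLoc 3 f
  | lctCone (f : MvPolynomial (Fin 4) ℂ) (d : ℕ) (hd : 0 < d) (hh : f.IsHomogeneous d)
      (h : ∀ p, p ≠ 0 → eval p f = 0 → (∀ i, eval p (pderiv i f) = 0) → LctPt f p) : StabLoc 4 f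
  | coneQ {k : ℕ} (f : MvPolynomial (Fin (k + 1)) ℂ) (d : ℕ) (hd : 0 < d)
      (hh : f.IsHomogeneous d) (h : IsoLines f)
      (hP : ∀ (q : Fin (k + 1) → ℂ) (j : Fin (k + 1)), q j = 1 →
        (∀ i, eval q (pderiv i f) = 0) → StabLoc k (YQ.chartEq f q j)) : StabLoc (k + 1) f
  | wconeQ {k : ℕ} (f : MvPolynomial (Fin (k + 1)) ℂ) (a : Fin (k + 1) → ℕ) (D : ℕ)
      (h : WHom f a D) (P : Finset (Fin (k + 1) → ℂ))
      (hcov : ∀ q, SingPt f q → QHat f q ∧ ∃ p ∈ P, ∃ t : ℂ, q = fun i => t ^ a i * p i)
      (j : (Fin (k + 1) → ℂ) → Fin (k + 1)) (hj : ∀ q ∈ P, q (j q) = 1)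
      (hP : ∀ q ∈ P, StabLoc k (YQ.chartEq f q (j q))) : StabLoc (k + 1) f
  | cone {n : ℕ} (f : MvPolynomial (Fin n) ℂ) (d : ℕ) (hd : 0 < d) (hh : f.IsHomogeneous d)
      (T T' : Set (Set (Fin n → ℂ))) (hT : (T ∪ T').Finite)
      (hcov : ∀ p, p ≠ 0 → eval p f = 0 → (∀ i, eval p (pderiv i f) = 0) →
        (∃ W ∈ T ∪ T', p ∈ W) ∨ OrdMult f p ∨ n ≤ (YG.hessAt f p).rank + 3)
      (k : Set (Fin n → ℂ) → ℕ) (g : (W : Set (Fin n → ℂ)) → MvPolynomial (Fin (k W)) ℂ)
      (h : ∀ W ∈ T, IsConstr W ∧ TrivAlong f W (g W)) (hg : ∀ W ∈ T, StabLoc (k W) (g W))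
      (h' : ∀ W ∈ T', IsConstr W ∧ ∃ (l : ℕ) (w : Fin l → ℕ) (N m : ℕ), SqhAlongPow f W w N m)
      (hroot : RootCond f d) : StabLoc n f
  | cone4 (f : MvPolynomial (Fin 4) ℂ) (d : ℕ) (hd : 0 < d) (hh : f.IsHomogeneous d)
      (T T' : Set (Set (Fin 4 → ℂ))) (hT : (T ∪ T').Finite)
      (hcov : ∀ p, p ≠ 0 → eval p f = 0 → (∀ i, eval p (pderiv i f) = 0) →
        (∃ W ∈ T ∪ T', p ∈ W) ∨ OrdMult f p ∨ YG.hessAt f p ≠ 0 ∨
          Squarefree (homogeneousComponent 3 (translate p f)) ∨ LctPt f p)
      (k : Set (Fin 4 → ℂ) → ℕ) (g : (W : Set (Fin 4 → ℂ)) → MvPolynomial (Fin (k W)) ℂ)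
      (h : ∀ W ∈ T, IsConstr W ∧ TrivAlong f W (g W)) (hg : ∀ W ∈ T, StabLoc (k W) (g W))
      (h' : ∀ W ∈ T', IsConstr W ∧ ∃ (l : ℕ) (w : Fin l → ℕ) (N m : ℕ), SqhAlongPow f W w N m)
      (hroot : RootCond f d) : StabLoc 4 f
  | wcone {k : ℕ} (f : MvPolynomial (Fin (k + 1)) ℂ) (a : Fin (k + 1) → ℕ) (D : ℕ)
      (h : WHom f a D) (T T' : Set (Set (Fin (k + 1) → ℂ))) (hT : (T ∪ T').Finite)
      (P : Finset (Fin (k + 1) → ℂ))
      (hcov : ∀ p, SingPt f p → (∃ W ∈ T ∪ T', p ∈ W) ∨ OrdMult f p ∨
        k + 1 ≤ (YG.hessAt f p).rank + 2 ∨ ∃ q ∈ P, ∃ t : ℂ, p = fun i => t ^ a i * q i)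
      (m : Set (Fin (k + 1) → ℂ) → ℕ)
      (g : (W : Set (Fin (k + 1) → ℂ)) → MvPolynomial (Fin (m W)) ℂ)
      (hW : ∀ W ∈ T, IsConstr W ∧ TrivAlong f W (g W)) (hg : ∀ W ∈ T, StabLoc (m W) (g W))
      (hW' : ∀ W ∈ T', IsConstr W ∧ ∃ (l : ℕ) (w : Fin l → ℕ) (N m : ℕ), SqhAlongPow f W w N m)
      (j : (Fin (k + 1) → ℂ) → Fin (k + 1)) (hj : ∀ q ∈ P, q (j q) = 1)
      (hP : ∀ q ∈ P, StabLoc k (YQ.chartEq f q (j q)))
      (hroot : WRoot f a D ∨ WRankRoot f a D) : StabLoc (k + 1) f
  | prod {n m : ℕ} (f : MvPolynomial (Fin n) ℂ) (g : MvPolynomial (Fin m) ℂ) (hf : StabLoc n f)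
      (hg : StabLoc m g) : StabLoc (n + m) (prodSep f g)
  | stab {n : ℕ} (f : MvPolynomial (Fin n) ℂ) (h : StabLoc (n + 2) (stab f)) : StabLoc n f
  | equiv {n : ℕ} (f g : MvPolynomial (Fin n) ℂ) (m : ℕ) (hm : 0 < m)
      (h : FormEquivPow f g m) (hg : StabLoc n g) : StabLoc n f

/-- The smallest class of germs at the origin which contains

* (`triple`) the surface germs of multiplicity three whose tangent cone is reduced;
* (`lct`) the surface germs whose log canonical threshold is greater than `7/8` (`LctPt`), for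
  example all log canonical ones;
* (`milnor`) the surface germs whose Milnor number is at most 14;
* (`tanCone`) the germs of order `d ≥ 3` in at least three variables whose tangent cone has only
  finitely many singular points in the projective space, with the conditions `TanConeV` and `TRoot`;
* (`wTanCone`) the germs in at least three variables whose part of the least weight, for some
  positive weights, has only finitely many critical orbits, with the conditions `WTanCone`;
* (`prod`) the products `f(x) g(y)` of two elements;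
* (`stab`) `f`, if it contains `f + x_{n+1} x_{n+2}`;
* (`equiv`) `f`, if it contains some `g` such that `f` is a unit times a power of `g` in suitable
  formal coordinates. -/
inductive TanLoc : (n : ℕ) → MvPolynomial (Fin n) ℂ → Prop
  | triple (f : MvPolynomial (Fin 3) ℂ) (low : ∀ j < 3, homogeneousComponent j f = 0)
      (h : Squarefree (homogeneousComponent 3 f)) : TanLoc 3 f
  | lct (f : MvPolynomial (Fin 3) ℂ) (h : LctPt f 0) : TanLoc 3 f
  | milnor (f : MvPolynomial (Fin 3) ℂ) (h : MilnorLe f 0 14) : TanLoc 3 f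
  | tanCone {k : ℕ} (f : MvPolynomial (Fin (k + 1)) ℂ) (d e : ℕ) (h : TanConeV f d e)
      (hroot : TRoot f d) : TanLoc (k + 1) f
  | wTanCone {k : ℕ} (f : MvPolynomial (Fin (k + 1)) ℂ) (a : Fin (k + 1) → ℕ) (D e : ℕ)
      (h : WTanCone f a D e) : TanLoc (k + 1) f
  | prod {n m : ℕ} (f : MvPolynomial (Fin n) ℂ) (g : MvPolynomial (Fin m) ℂ) (hf : TanLoc n f)
      (hg : TanLoc m g) : TanLoc (n + m) (prodSep f g)
  | stab {n : ℕ} (f : MvPolynomial (Fin n) ℂ) (h : TanLoc (n + 2) (stab f)) : TanLoc n f
  | equiv {n : ℕ} (f g : MvPolynomial (Fin n) ℂ) (m : ℕ) (hm : 0 < m)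
      (h : FormEquivPow f g m) (hg : TanLoc n g) : TanLoc n f

/-- The smallest class of germs at the origin which contains the classes `StabLoc` and `TanLoc` and
has the same closure properties: it contains

* (`coneQ`) the homogeneous polynomials with finitely many singular points `q` in the projective
  space, `q_j = 1`, at which some polynomial vector field which kills the polynomial does not vanish
  (quasi-homogeneous singular points), and the restriction to `x_j = 1` has a germ in the class;
* (`wconeQ`) the weighted homogeneous polynomials (`WHom`) whose critical points outside the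
  origin form finitely many orbits of `ℂ^*`, such that some polynomial vector field which kills the
  polynomial does not vanish there, and at representatives `q`, `q_j = 1`, of the orbits the
  restriction to `x_j = 1` has a germ in the class;
* (`cone`) the homogeneous polynomials of degree `d` in `n` variables with the condition
  `RootCond` at `-n/d`, whose critical zeros outside the origin are covered by finitely many
  constructible sets, along each of which the polynomial is trivial with a germ in the class or a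
  unit times a power of a semi-quasi-homogeneous polynomial (`SqhAlongPow`), by ordinary multiple
  points along smooth germs (`OrdMult`), and by points at which the Hessian matrix has rank at least
  `n - 3`;
* (`cone4`) the homogeneous polynomials of degree `d` in four variables with the condition
  `RootCond` at `-4/d`, whose critical zeros outside the origin are covered by such sets, by ordinary
  multiple points along smooth germs, by points at which the surface in the projective space has a
  double point (the Hessian matrix is not zero) or a triple point with reduced tangent cone (the part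
  of degree three of `f(p + x)` is squarefree), and by points at which the log canonical threshold is
  greater than `7/8` (`LctPt`);
* (`wcone`) the weighted homogeneous polynomials with the conditions `WHom`, and `WRoot` or
  `WRankRoot` (the sum of the weights is at most `D`, and at each critical zero `p ≠ 0` the Hessian
  matrix has rank at least two, or the multiplicity is at most `D/∑ a_i`, or the log canonical
  threshold is greater than `∑ a_i/D`), whose critical points outside the origin are covered by finitely many constructible sets, along each of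
  which the polynomial is trivial with a germ in the class or a unit times a power of a
  semi-quasi-homogeneous polynomial (`SqhAlongPow`), by ordinary multiple points along smooth germs
  (`OrdMult`), by points at which the Hessian matrix has rank at least `n - 2`, and by finitely many
  orbits of `ℂ^*`, at whose points `q`, `q_j = 1`, the restriction to `x_j = 1` has a germ in the
  class;
* (`prod`) the products `f(x) g(y)` of two elements;
* (`stab`) `f`, if it contains `f + x_{n+1} x_{n+2}`;
* (`equiv`) `f`, if it contains some `g` such that `f` is a unit times a power of `g` in suitable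
  formal coordinates. -/
inductive StabGerm : (n : ℕ) → MvPolynomial (Fin n) ℂ → Prop
  | loc {n : ℕ} (f : MvPolynomial (Fin n) ℂ) (h : StabLoc n f) : StabGerm n f
  | tan {n : ℕ} (f : MvPolynomial (Fin n) ℂ) (h : TanLoc n f) : StabGerm n f
  | coneQ {k : ℕ} (f : MvPolynomial (Fin (k + 1)) ℂ) (d : ℕ) (hd : 0 < d)
      (hh : f.IsHomogeneous d) (h : IsoLines f)
      (hP : ∀ (q : Fin (k + 1) → ℂ) (j : Fin (k + 1)), q j = 1 →
        (∀ i, eval q (pderiv i f) = 0) → StabGerm k (YQ.chartEq f q j)) : StabGerm (k + 1) f
  | wconeQ {k : ℕ} (f : MvPolynomial (Fin (k + 1)) ℂ) (a : Fin (k + 1) → ℕ) (D : ℕ)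
      (h : WHom f a D) (P : Finset (Fin (k + 1) → ℂ))
      (hcov : ∀ q, SingPt f q → QHat f q ∧ ∃ p ∈ P, ∃ t : ℂ, q = fun i => t ^ a i * p i)
      (j : (Fin (k + 1) → ℂ) → Fin (k + 1)) (hj : ∀ q ∈ P, q (j q) = 1)
      (hP : ∀ q ∈ P, StabGerm k (YQ.chartEq f q (j q))) : StabGerm (k + 1) f
  | cone {n : ℕ} (f : MvPolynomial (Fin n) ℂ) (d : ℕ) (hd : 0 < d) (hh : f.IsHomogeneous d)
      (T T' : Set (Set (Fin n → ℂ))) (hT : (T ∪ T').Finite)
      (hcov : ∀ p, p ≠ 0 → eval p f = 0 → (∀ i, eval p (pderiv i f) = 0) →
        (∃ W ∈ T ∪ T', p ∈ W) ∨ OrdMult f p ∨ n ≤ (YG.hessAt f p).rank + 3)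
      (k : Set (Fin n → ℂ) → ℕ) (g : (W : Set (Fin n → ℂ)) → MvPolynomial (Fin (k W)) ℂ)
      (h : ∀ W ∈ T, IsConstr W ∧ TrivAlong f W (g W)) (hg : ∀ W ∈ T, StabGerm (k W) (g W))
      (h' : ∀ W ∈ T', IsConstr W ∧ ∃ (l : ℕ) (w : Fin l → ℕ) (N m : ℕ), SqhAlongPow f W w N m)
      (hroot : RootCond f d) : StabGerm n f
  | cone4 (f : MvPolynomial (Fin 4) ℂ) (d : ℕ) (hd : 0 < d) (hh : f.IsHomogeneous d)
      (T T' : Set (Set (Fin 4 → ℂ))) (hT : (T ∪ T').Finite)
      (hcov : ∀ p, p ≠ 0 → eval p f = 0 → (∀ i, eval p (pderiv i f) = 0) →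
        (∃ W ∈ T ∪ T', p ∈ W) ∨ OrdMult f p ∨ YG.hessAt f p ≠ 0 ∨
          Squarefree (homogeneousComponent 3 (translate p f)) ∨ LctPt f p)
      (k : Set (Fin 4 → ℂ) → ℕ) (g : (W : Set (Fin 4 → ℂ)) → MvPolynomial (Fin (k W)) ℂ)
      (h : ∀ W ∈ T, IsConstr W ∧ TrivAlong f W (g W)) (hg : ∀ W ∈ T, StabGerm (k W) (g W))
      (h' : ∀ W ∈ T', IsConstr W ∧ ∃ (l : ℕ) (w : Fin l → ℕ) (N m : ℕ), SqhAlongPow f W w N m)
      (hroot : RootCond f d) : StabGerm 4 f
  | wcone {k : ℕ} (f : MvPolynomial (Fin (k + 1)) ℂ) (a : Fin (k + 1) → ℕ) (D : ℕ)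
      (h : WHom f a D) (T T' : Set (Set (Fin (k + 1) → ℂ))) (hT : (T ∪ T').Finite)
      (P : Finset (Fin (k + 1) → ℂ))
      (hcov : ∀ p, SingPt f p → (∃ W ∈ T ∪ T', p ∈ W) ∨ OrdMult f p ∨
        k + 1 ≤ (YG.hessAt f p).rank + 2 ∨ ∃ q ∈ P, ∃ t : ℂ, p = fun i => t ^ a i * q i)
      (m : Set (Fin (k + 1) → ℂ) → ℕ)
      (g : (W : Set (Fin (k + 1) → ℂ)) → MvPolynomial (Fin (m W)) ℂ)
      (hW : ∀ W ∈ T, IsConstr W ∧ TrivAlong f W (g W)) (hg : ∀ W ∈ T, StabGerm (m W) (g W))
      (hW' : ∀ W ∈ T', IsConstr W ∧ ∃ (l : ℕ) (w : Fin l → ℕ) (N m : ℕ), SqhAlongPow f W w N m)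
      (j : (Fin (k + 1) → ℂ) → Fin (k + 1)) (hj : ∀ q ∈ P, q (j q) = 1)
      (hP : ∀ q ∈ P, StabGerm k (YQ.chartEq f q (j q)))
      (hroot : WRoot f a D ∨ WRankRoot f a D) : StabGerm (k + 1) f
  | prod {n m : ℕ} (f : MvPolynomial (Fin n) ℂ) (g : MvPolynomial (Fin m) ℂ) (hf : StabGerm n f)
      (hg : StabGerm m g) : StabGerm (n + m) (prodSep f g)
  | stab {n : ℕ} (f : MvPolynomial (Fin n) ℂ) (h : StabGerm (n + 2) (stab f)) : StabGerm n f
  | equiv {n : ℕ} (f g : MvPolynomial (Fin n) ℂ) (m : ℕ) (hm : 0 < m)
      (h : FormEquivPow f g m) (hg : StabGerm n g) : StabGerm n f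

/-- The smallest class of polynomials which vanish at the origin, which contains

* (`nondeg`) the polynomials that are non-degenerate on all faces of their Newton polyhedron and on
  all faces of these faces;
* (`deg4`) the polynomials of degree at most four in three variables;
* (`deg34`) the polynomials of degree at most three in four variables;
* (`sumG`, `sum3`, `sum3q`, `sum4`) the polynomials
  `f = g(x_1, …, x_k) + h_1(z_1) + ⋯ + h_r(z_r)`, where `r ≥ 0` is arbitrary, the `h_i` are not constant
  and one of the following conditions holds: `k ≥ 2` and for each critical zero `(p, z)` of `f` the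
  Hessian matrix of `g` at `p` has rank at least `k - 2` (no condition if `k = 2`); `k = 3` and `g` has
  degree at most three; `k = 3`, and for each critical zero `(p, z)` of `f` the Hessian matrix of `g` at
  `p` is not zero, or `g(p + x)` satisfies `TriGerm3`;
  `k = 4`, `g` has degree at most three, and for each critical zero `(p, z)` of `f` the Hessian matrix
  of `g` at `p` has rank at least two, or `p` is one of finitely many points at which it is not zero;
* (`hom`) the homogeneous polynomials in `StabGerm`;
* (`whom`) the weighted homogeneous polynomials in `StabGerm` with the condition `WHom`, whose critical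
  points outside the origin are covered by finitely many constructible sets as in (`sing`), by ordinary
  multiple points along smooth germs (`OrdMult`), by points at which the Hessian matrix has rank at
  least `n - 2`, and by finitely many orbits of `ℂ^*`, at whose points `q`, `q_j = 1`, the restriction
  to `x_j = 1` has a germ in `StabGerm`;
* (`sing`) the polynomials `f` such that each point `p` at which `f` and its partial derivatives
  vanish is one of finitely many points for which `f(x + p)` is in `StabGerm`, or lies in one of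
  finitely many constructible sets `W` along which `f` is a unit times a power of a
  semi-quasi-homogeneous polynomial (`SqhAlongPow`) or trivial with a germ in `StabGerm` (near the
  points of `W`, `f` is a rational function without zeros and poles times `g(u_1/q, …, u_k/q)`,
  where `g` is in `StabGerm`, `q` is a polynomial without zeros on `W` and the `u_j` are polynomials
  which vanish on `W` and have linearly independent differentials at its points), or is an ordinary
  multiple point along a smooth germ (`OrdMult`), or the Hessian matrix of `f` at `p` has rank at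
  least `n - 2`;
* (`surf`) the polynomials in three variables with the same condition, where the last alternative
  is replaced by: `p` is a double point (the Hessian matrix of `f` at `p` is not zero), or a triple
  point whose tangent cone is reduced (the part of degree three of `f(p + x)` is squarefree), or a
  point with Milnor number at most 14 (`MilnorLe`), or the log canonical threshold of `f` at `p` is
  greater than `7/8` (`LctPt`); this class contains for example all `f` for which the pair
  `(ℂ³, {f = 0})` is log canonical;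
* (`prod`) the products `f(x) g(y)` of two elements;
* (`stab`) `f`, if it contains `f + x_{n+1} x_{n+2}`;
* (`equiv`) `f`, if it contains some `g` such that `f` is a constant times a power of the image of
  `g` under an automorphism of the polynomial ring. -/
inductive StabGlob : (n : ℕ) → MvPolynomial (Fin n) ℂ → Prop
  | nondeg {n : ℕ} (f : MvPolynomial (Fin n) ℂ) (h0 : coeff 0 f = 0)
      (h : ∀ w : Fin n → ℕ, IsNondeg (initialPart f w))
      (h' : ∀ (w : Fin n → ℕ) (ω : Fin n → ℤ), (∀ v ∈ f.support, 0 < ∑ j, w j * v j) →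
        IsNondeg (initialPartZ (initialPart f w) ω)) : StabGlob n f
  | deg4 (f : MvPolynomial (Fin 3) ℂ) (h0 : coeff 0 f = 0) (h : f.totalDegree ≤ 4) : StabGlob 3 f
  | deg34 (f : MvPolynomial (Fin 4) ℂ) (h0 : coeff 0 f = 0) (h : f.totalDegree ≤ 3) : StabGlob 4 f
  | sumG {n r : ℕ} (hn : 2 ≤ n) (g : MvPolynomial (Fin n) ℂ) (h : Fin r → Polynomial ℂ)
      (h0 : coeff 0
        (rename (Fin.castAdd r) g + ∑ i, Polynomial.aeval (X (Fin.natAdd n i)) (h i)) = 0)
      (hh : ∀ i, 0 < (h i).natDegree)
      (hc : ∀ (p : Fin n → ℂ) (z : Fin r → ℂ), eval p g + ∑ i, (h i).eval (z i) = 0 →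
        (∀ i, eval p (pderiv i g) = 0) → (∀ i, (Polynomial.derivative (h i)).eval (z i) = 0) →
        n ≤ (YG.hessAt g p).rank + 2) :
      StabGlob (n + r)
        (rename (Fin.castAdd r) g + ∑ i, Polynomial.aeval (X (Fin.natAdd n i)) (h i))
  | sum3 {r : ℕ} (g : MvPolynomial (Fin 3) ℂ) (hd : g.totalDegree ≤ 3) (h : Fin r → Polynomial ℂ)
      (h0 : coeff 0
        (rename (Fin.castAdd r) g + ∑ i, Polynomial.aeval (X (Fin.natAdd 3 i)) (h i)) = 0)
      (hh : ∀ i, 0 < (h i).natDegree) :
      StabGlob (3 + r)
        (rename (Fin.castAdd r) g + ∑ i, Polynomial.aeval (X (Fin.natAdd 3 i)) (h i))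
  | sum3q {r : ℕ} (g : MvPolynomial (Fin 3) ℂ) (h : Fin r → Polynomial ℂ)
      (h0 : coeff 0
        (rename (Fin.castAdd r) g + ∑ i, Polynomial.aeval (X (Fin.natAdd 3 i)) (h i)) = 0)
      (hh : ∀ i, 0 < (h i).natDegree)
      (hc : ∀ (p : Fin 3 → ℂ) (z : Fin r → ℂ), eval p g + ∑ i, (h i).eval (z i) = 0 →
        (∀ i, eval p (pderiv i g) = 0) → (∀ i, (Polynomial.derivative (h i)).eval (z i) = 0) →
        YG.hessAt g p ≠ 0 ∨ TriGerm3 (translate p g)) :
      StabGlob (3 + r)
        (rename (Fin.castAdd r) g + ∑ i, Polynomial.aeval (X (Fin.natAdd 3 i)) (h i))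
  | sum4 {r : ℕ} (g : MvPolynomial (Fin 4) ℂ) (hd : g.totalDegree ≤ 3) (h : Fin r → Polynomial ℂ)
      (h0 : coeff 0
        (rename (Fin.castAdd r) g + ∑ i, Polynomial.aeval (X (Fin.natAdd 4 i)) (h i)) = 0)
      (hh : ∀ i, 0 < (h i).natDegree) (P : Finset (Fin 4 → ℂ))
      (hc : ∀ (p : Fin 4 → ℂ) (z : Fin r → ℂ), eval p g + ∑ i, (h i).eval (z i) = 0 →
        (∀ i, eval p (pderiv i g) = 0) → (∀ i, (Polynomial.derivative (h i)).eval (z i) = 0) →
        YG.hessAt g p ≠ 0 ∧ (p ∈ P ∨ 2 ≤ (YG.hessAt g p).rank)) :
      StabGlob (4 + r)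
        (rename (Fin.castAdd r) g + ∑ i, Polynomial.aeval (X (Fin.natAdd 4 i)) (h i))
  | hom {n : ℕ} (f : MvPolynomial (Fin n) ℂ) (d : ℕ) (hd : 0 < d) (hh : f.IsHomogeneous d)
      (h : StabGerm n f) : StabGlob n f
  | whom {k : ℕ} (f : MvPolynomial (Fin (k + 1)) ℂ) (a : Fin (k + 1) → ℕ) (D : ℕ)
      (H : WHom f a D) (hloc : StabGerm (k + 1) f) (P : Finset (Fin (k + 1) → ℂ))
      (T : Set (Set (Fin (k + 1) → ℂ))) (hT : T.Finite)
      (hcov : ∀ p, SingPt f p → (∃ W ∈ T, p ∈ W) ∨ OrdMult f p ∨
        k + 1 ≤ (YG.hessAt f p).rank + 2 ∨ ∃ q ∈ P, ∃ t : ℂ, p = fun i => t ^ a i * q i)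
      (h : ∀ W ∈ T, IsConstr W ∧
        ((∃ (l : ℕ) (g : MvPolynomial (Fin l) ℂ), StabGerm l g ∧ TrivAlong f W g) ∨
          ∃ (l : ℕ) (w : Fin l → ℕ) (N m : ℕ), SqhAlongPow f W w N m))
      (j : (Fin (k + 1) → ℂ) → Fin (k + 1)) (hj : ∀ q ∈ P, q (j q) = 1)
      (hP : ∀ q ∈ P, StabGerm k (YQ.chartEq f q (j q))) : StabGlob (k + 1) f
  | sing {n : ℕ} (f : MvPolynomial (Fin n) ℂ) (h0 : coeff 0 f = 0) (P : Finset (Fin n → ℂ))
      (hP : ∀ p ∈ P, StabGerm n (translate p f)) (T : Set (Set (Fin n → ℂ))) (hT : T.Finite)
      (h : ∀ W ∈ T, IsConstr W ∧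
        ((∃ (k : ℕ) (g : MvPolynomial (Fin k) ℂ), StabGerm k g ∧ TrivAlong f W g) ∨
          ∃ (k : ℕ) (w : Fin k → ℕ) (N m : ℕ), SqhAlongPow f W w N m))
      (hcov : ∀ p, eval p f = 0 → (∀ i, eval p (pderiv i f) = 0) →
        p ∈ P ∨ (∃ W ∈ T, p ∈ W) ∨ OrdMult f p ∨ n ≤ (YG.hessAt f p).rank + 2) : StabGlob n f
  | surf (f : MvPolynomial (Fin 3) ℂ) (h0 : coeff 0 f = 0) (P : Finset (Fin 3 → ℂ))
      (hP : ∀ p ∈ P, StabGerm 3 (translate p f)) (T : Set (Set (Fin 3 → ℂ))) (hT : T.Finite)
      (h : ∀ W ∈ T, IsConstr W ∧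
        ((∃ (k : ℕ) (g : MvPolynomial (Fin k) ℂ), StabGerm k g ∧ TrivAlong f W g) ∨
          ∃ (k : ℕ) (w : Fin k → ℕ) (N m : ℕ), SqhAlongPow f W w N m))
      (hcov : ∀ p, eval p f = 0 → (∀ i, eval p (pderiv i f) = 0) →
        p ∈ P ∨ (∃ W ∈ T, p ∈ W) ∨ OrdMult f p ∨ YG.hessAt f p ≠ 0 ∨
          Squarefree (homogeneousComponent 3 (translate p f)) ∨ MilnorLe f p 14 ∨ LctPt f p) :
      StabGlob 3 f
  | prod {n m : ℕ} (f : MvPolynomial (Fin n) ℂ) (g : MvPolynomial (Fin m) ℂ) (hf : StabGlob n f)
      (hg : StabGlob m g) : StabGlob (n + m) (prodSep f g)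
  | stab {n : ℕ} (f : MvPolynomial (Fin n) ℂ) (h : StabGlob (n + 2) (stab f)) : StabGlob n f
  | equiv {n : ℕ} (f g : MvPolynomial (Fin n) ℂ) (m : ℕ) (hm : 0 < m) (h0 : coeff 0 f = 0)
      (h : PolyEquivPow f g m) (hg : StabGlob n g) : StabGlob n f

end MPb07157
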