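import Pool.Agent.Lib.MP_b07157_agS.SClass
import Pool.Agent.Lib.MP_b07157_agU.Bridge
import Pool.Agent.Lib.MP_b07157_agS4.SAux
import Pool.Agent.Lib.MP_b07157_agSE.Deg4
import Pool.Agent.Lib.MP_b07157_agSE.Surf
import Pool.Agent.Lib.MP_b07157_agLT.RE
import Pool.Agent.Lib.MP_b07157_agLC.Main
import Pool.Agent.Lib.MP_b07157_agLC.Mil
import Pool.Agent.Lib.MP_b07157_agLC.WR
import Pool.Agent.Lib.MP_b07157_agLC.WG
import Pool.Agent.Lib.MP_b07157_agCR.Lct
import Pool.Agent.Lib.MP_b07157_agC5S.Main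
import Pool.Agent.Lib.MP_b07157_agQG.Main
import Pool.Agent.Lib.MP_b07157_agSG3.SFin
import Pool.Agent.Lib.MP_b07157_agCV.Glob
import Pool.Agent.Lib.MP_b07157_agCS.QH
import Pool.Agent.Lib.MP_b07157_agN1.HomLG
import Pool.Agent.Lib.MP_b07157_agSG.Final
import Pool.Agent.Lib.MP_b07157_agWI.TC
import Pool.Agent.Lib.MP_b07157_agSP.Pow
import Pool.Agent.Lib.MP_b07157_agSD.WCone
import Pool.Agent.Lib.MP_b07157_agH3.Main
import Pool.Agent.Lib.MP_b07157_agO.QMain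
import Pool.Agent.Lib.MP_b07157_agYV.Tc
import Pool.Agent.Lib.MP_b07157_agT3.Main
import Pool.Agent.Lib.MP_b07157_agYW.Tc
import Pool.Agent.Lib.MP_b07157_agYC.Core
import Pool.Agent.Lib.MP_b07157_agS4.SInd

/-!
# The strong monodromy conjecture for the final classes
-/

noncomputable section

namespace MPb07157

open MvPolynomial

/-- **The strong monodromy conjecture, local version**, for forms in three variables with the
condition `CondThree`. -/
theorem SmcLoc.of_condThree {f : MvPolynomial (Fin 3) ℂ} (hf : f ≠ 0) {d : ℕ} (hd : 0 < d)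
    (hh : f.IsHomogeneous d) (h : CondThree f d) : SmcLoc f := by
  intro s₀ hs hp b hb
  have hbg : IsBernsteinSato f b := isBernsteinSato_of_form_homogeneous hh hb
  exact (smc_ternary hf hd hh hs (fun _ => h) (Or.inr hp)).1 b hbg

theorem SmcLoc.of_rootCond {n : ℕ} {f : MvPolynomial (Fin n) ℂ} (hf : f ≠ 0) (h0 : coeff 0 f = 0)
    {d : ℕ} (hd : 0 < d) (hh : f.IsHomogeneous d) (hroot : RootCond f d)
    (h : d = n ∨ ConeRoot f d → SmcLoc f) : SmcLoc f := by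
  rcases hroot with h1 | h1 | h1 | ⟨h1, h2⟩
  · exact h (Or.inl h1)
  · exact h (Or.inr h1)
  · exact h (Or.inr (ConeRoot.of_rankRoot hd hh h1))
  · rcases Nat.lt_or_ge n 3 with hn | hn
    · exact SU.smcLoc_corank hf h0 (by omega)
    · obtain ⟨t, rfl⟩ := Nat.exists_eq_add_of_le' hn
      exact h (Or.inr (Or.inr (CS.isoLines_of_corank hd hh h1 fun q hq hs => by
        have := h2 q ⟨hq, hs⟩
        omega)))

theorem SmcLoc.of_coneL {f : MvPolynomial (Fin 4) ℂ} (hf : f ≠ 0) {d : ℕ} (hd : 0 < d)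
    (hh : f.IsHomogeneous d) {T : Set (Set (Fin 4 → ℂ))} (hT : T.Finite)
    (hTW : ∀ W ∈ T, IsConstr W ∧ MonoAlong f W)
    (hcov : ∀ p, p ≠ 0 → eval p f = 0 → (∀ i, eval p (pderiv i f) = 0) →
      (∃ W ∈ T, p ∈ W) ∨ OrdMult f p ∨ YG.hessAt f p ≠ 0 ∨
        Squarefree (homogeneousComponent 3 (translate p f)) ∨ LctPt f p)
    (hroot : d = 4 ∨ ConeRoot f d) : SmcLoc f := by
  refine SmcLoc.of_coneT hf hd hh hT hTW (fun p hp h0 h1 => ?_) hroot
  rcases hcov p hp h0 h1 with h | h | h | h | ⟨r, hr, hint⟩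
  · exact Or.inl h
  · exact Or.inr (Or.inl h)
  · exact Or.inr (Or.inr (Or.inl h))
  · exact Or.inr (Or.inr (Or.inr h))
  · refine Or.inr (Or.inr ?_)
    by_contra hcon
    rw [not_or, not_ne_iff] at hcon
    exact LC.not_integrable_four hf hh hp h0 h1 hcon.1 hcon.2 hr hint

theorem MonoAlong.of_sqh {n : ℕ} {f : MvPolynomial (Fin n) ℂ} {W : Set (Fin n → ℂ)}
    (h : ∃ (l : ℕ) (w : Fin l → ℕ) (N m : ℕ), SqhAlongPow f W w N m) (hf : f ≠ 0) : MonoAlong f W := by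
  obtain ⟨l, w, N, m, h⟩ := h
  exact MonoAlong.of_sqhAlongPow hf h

theorem SmcLoc.of_stabLoc {n : ℕ} {f : MvPolynomial (Fin n) ℂ} (h : StabLoc n f)
    (hf : f ≠ 0) (h0 : coeff 0 f = 0) : SmcLoc f := by
  induction h with
  | nondeg f h => exact fun s₀ _ hp b hb => eval_eq_zero_of_form hf h0 h s₀ hp b hb
  | corank f h => exact SU.smcLoc_corank hf h0 h
  | deg4 f h => exact SmcLoc.of_deg4 hf h0 h
  | quartic4 f hh => exact SmcLoc.of_quartic hf hh
  | deg34 f h => exact SmcLoc.of_deg3_four hf h0 h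
  | sqh f w hw h => exact SmcLoc.of_sqh hw h hf h0
  | susp f E u g e he hg h => exact SU.smcLoc_suspP hf h0 hg he h
  | sumG hn g h hh hc => exact SmcLoc.of_sumG hn hh hf h0 hc
  | sum3 g hd h hh => exact SmcLoc.of_sumThree hd hh hf h0
  | sum3q g h hh hc => exact SmcLoc.of_sum3S hc hh
  | sum4 g hd h hh hc => exact SmcLoc.of_sum4 hd hh hf h0 hc
  | qo f h => exact QO.smcLoc_quasiOrd hf h0 h
  | arr a m => exact smcLoc_arr a m hf h0
  | tern f d hd hh h => exact SmcLoc.of_condThree hf hd hh h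
  | lctCone f d hd hh h => exact SmcLoc.of_lctCone' hf hd hh h
  | coneQ f d hd hh h _ ih => exact SmcLoc.of_coneQ hf hd hh h ih
  | wconeQ f a D h P hcov j hj _ ihP => exact SmcLoc.of_wconeQ hf h hcov j hj ihP
  | cone f d hd hh T T' hT hcov k g h _ h' hroot ih =>
    exact SmcLoc.of_rootCond hf h0 hd hh hroot (SmcLoc.of_coneF hf hd hh hT (fun W hW => hW.elim
      (fun hW => ⟨(h W hW).1, MonoAlong.of_trivAlong hf (h W hW).2 (ih W hW)⟩)
      (fun hW => ⟨(h' W hW).1, MonoAlong.of_sqh (h' W hW).2 hf⟩)) hcov)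
  | cone4 f d hd hh T T' hT hcov k g h _ h' hroot ih =>
    exact SmcLoc.of_rootCond hf h0 hd hh hroot (SmcLoc.of_coneL hf hd hh hT (fun W hW => hW.elim
      (fun hW => ⟨(h W hW).1, MonoAlong.of_trivAlong hf (h W hW).2 (ih W hW)⟩)
      (fun hW => ⟨(h' W hW).1, MonoAlong.of_sqh (h' W hW).2 hf⟩)) hcov)
  | wcone f a D h T T' hT P hcov m g hW _ hW' j hj _ hroot ihg ihP =>
    exact SmcLoc.of_wconeF hf h hT hcov (fun W hWT => hWT.elim
      (fun hWT => ⟨(hW W hWT).1, MonoAlong.of_trivAlong hf (hW W hWT).2 (ihg W hWT)⟩)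
      (fun hWT => ⟨(hW' W hWT).1, MonoAlong.of_sqh (hW' W hWT).2 hf⟩))
      (PP := fun k g => g ≠ 0 → coeff 0 g = 0 → SmcLoc g) (fun _ _ hg => hg) j hj ihP
      (hroot.elim id (WRoot.of_wrankRoot hf h.ha h.hD h.hom))
  | prod f g _ _ ihf ihg => exact SmcLoc.prodSep' hf ihf ihg
  | stab f _ ih => exact SmcLoc.of_stab hf h0 (ih (stab_ne_zero f) (coeff_zero_stab h0))
  | equiv f g m hm h _ ih =>
    exact SmcLoc.of_formEquivPow hm h
      (ih (ne_zero_of_formEquivPow hm h hf) (coeff_zero_eq_zero_of_formEquivPow hm h h0))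

theorem SmcLoc.of_tanLoc {n : ℕ} {f : MvPolynomial (Fin n) ℂ} (h : TanLoc n f)
    (hf : f ≠ 0) (h0 : coeff 0 f = 0) : SmcLoc f := by
  induction h with
  | triple f low h => exact SmcLoc.of_triple low h
  | lct f h => exact SmcLoc.of_lct hf h0 h
  | milnor f h => exact SmcLoc.of_milnor hf h0 h
  | tanCone f d e h hroot => exact SmcLoc.of_tanConeV h hroot
  | wTanCone f a D e h => exact SmcLoc.of_wTanCone h
  | prod f g _ _ ihf ihg => exact SmcLoc.prodSep' hf ihf ihg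
  | stab f _ ih => exact SmcLoc.of_stab hf h0 (ih (stab_ne_zero f) (coeff_zero_stab h0))
  | equiv f g m hm h _ ih =>
    exact SmcLoc.of_formEquivPow hm h
      (ih (ne_zero_of_formEquivPow hm h hf) (coeff_zero_eq_zero_of_formEquivPow hm h h0))

theorem SmcLoc.of_stabGerm {n : ℕ} {f : MvPolynomial (Fin n) ℂ} (h : StabGerm n f)
    (hf : f ≠ 0) (h0 : coeff 0 f = 0) : SmcLoc f := by
  induction h with
  | loc f h => exact SmcLoc.of_stabLoc h hf h0
  | tan f h => exact SmcLoc.of_tanLoc h hf h0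
  | coneQ f d hd hh h _ ih => exact SmcLoc.of_coneQ hf hd hh h ih
  | wconeQ f a D h P hcov j hj _ ihP => exact SmcLoc.of_wconeQ hf h hcov j hj ihP
  | cone f d hd hh T T' hT hcov k g h _ h' hroot ih =>
    exact SmcLoc.of_rootCond hf h0 hd hh hroot (SmcLoc.of_coneF hf hd hh hT (fun W hW => hW.elim
      (fun hW => ⟨(h W hW).1, MonoAlong.of_trivAlong hf (h W hW).2 (ih W hW)⟩)
      (fun hW => ⟨(h' W hW).1, MonoAlong.of_sqh (h' W hW).2 hf⟩)) hcov)
  | cone4 f d hd hh T T' hT hcov k g h _ h' hroot ih =>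
    exact SmcLoc.of_rootCond hf h0 hd hh hroot (SmcLoc.of_coneL hf hd hh hT (fun W hW => hW.elim
      (fun hW => ⟨(h W hW).1, MonoAlong.of_trivAlong hf (h W hW).2 (ih W hW)⟩)
      (fun hW => ⟨(h' W hW).1, MonoAlong.of_sqh (h' W hW).2 hf⟩)) hcov)
  | wcone f a D h T T' hT P hcov m g hW _ hW' j hj _ hroot ihg ihP =>
    exact SmcLoc.of_wconeF hf h hT hcov (fun W hWT => hWT.elim
      (fun hWT => ⟨(hW W hWT).1, MonoAlong.of_trivAlong hf (hW W hWT).2 (ihg W hWT)⟩)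
      (fun hWT => ⟨(hW' W hWT).1, MonoAlong.of_sqh (hW' W hWT).2 hf⟩))
      (PP := fun k g => g ≠ 0 → coeff 0 g = 0 → SmcLoc g) (fun _ _ hg => hg) j hj ihP
      (hroot.elim id (WRoot.of_wrankRoot hf h.ha h.hD h.hom))
  | prod f g _ _ ihf ihg => exact SmcLoc.prodSep' hf ihf ihg
  | stab f _ ih => exact SmcLoc.of_stab hf h0 (ih (stab_ne_zero f) (coeff_zero_stab h0))
  | equiv f g m hm h _ ih =>
    exact SmcLoc.of_formEquivPow hm h
      (ih (ne_zero_of_formEquivPow hm h hf) (coeff_zero_eq_zero_of_formEquivPow hm h h0))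

theorem coeff_zero_of_form {n : ℕ} {f : MvPolynomial (Fin n) ℂ} {d : ℕ} (hd : 0 < d)
    (hh : f.IsHomogeneous d) : coeff 0 f = 0 := by
  by_contra h
  have h1 := hh h
  rw [Finsupp.weight_apply, Finsupp.sum_zero_index] at h1
  omega

theorem coeff_zero_of_whom {n : ℕ} {f : MvPolynomial (Fin n) ℂ} {a : Fin n → ℕ} {D : ℕ}
    (H : WHom f a D) : coeff 0 f = 0 := by
  by_contra h
  have h1 := H.hom h
  have h2 := H.hD
  rw [map_zero] at h1
  omega

theorem SmcGlob.of_hom {n : ℕ} {f : MvPolynomial (Fin n) ℂ} (hf : f ≠ 0) {d : ℕ} (hd : 0 < d)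
    (hh : f.IsHomogeneous d) (h : StabGerm n f) : SmcGlob f := fun s₀ hs hp =>
  (roots_of_form fun b hb => SmcLoc.of_stabGerm h hf (coeff_zero_of_form hd hh) s₀ hs
    ((MN.isPole_Zmot0_iff hd hh).2 hp) b hb).1

theorem SmcGlob.of_singP {n : ℕ} {f : MvPolynomial (Fin n) ℂ} (hf : f ≠ 0) (h0 : coeff 0 f = 0)
    {P : Finset (Fin n → ℂ)} (hP : ∀ p ∈ P, StabGerm n (translate p f))
    {T : Set (Set (Fin n → ℂ))} (hT : T.Finite)
    (h : ∀ W ∈ T, IsConstr W ∧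
      ((∃ (k : ℕ) (g : MvPolynomial (Fin k) ℂ), StabGerm k g ∧ TrivAlong f W g) ∨
        ∃ (k : ℕ) (w : Fin k → ℕ) (N m : ℕ), SqhAlongPow f W w N m))
    (hcov : ∀ p, eval p f = 0 → (∀ i, eval p (pderiv i f) = 0) →
      p ∈ P ∨ (∃ W ∈ T, p ∈ W) ∨ OrdMult f p ∨ n ≤ (YG.hessAt f p).rank + 2) : SmcGlob f := by
  refine SmcGlob.of_sing hf h0 (T := T ∪ (fun p => {p}) '' (P : Set (Fin n → ℂ)))
    (hT.union (P.finite_toSet.image _)) ?_ fun p h1 h2 => ?_
  · rintro W (hW | ⟨p, hp, rfl⟩)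
    · refine ⟨(h W hW).1, ?_⟩
      rcases (h W hW).2 with ⟨k, g, hg, ht⟩ | h1
      · exact MonoAlong.of_trivAlong hf ht fun h1 h2 => SmcLoc.of_stabGerm hg h1 h2
      · exact MonoAlong.of_sqh h1 hf
    · exact ⟨isConstr_point p, MonoAlong.of_point hf fun h1 h2 =>
        SmcLoc.of_stabGerm (hP p hp) h1 h2⟩
  · rcases hcov p h1 h2 with h3 | ⟨W, hW, hpW⟩ | h3
    · exact Or.inl ⟨{p}, Or.inr ⟨p, h3, rfl⟩, rfl⟩
    · exact Or.inl ⟨W, Or.inl hW, hpW⟩
    · exact Or.inr h3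

theorem SmcGlob.of_surfP {f : MvPolynomial (Fin 3) ℂ} (hf : f ≠ 0) (h0 : coeff 0 f = 0)
    {P : Finset (Fin 3 → ℂ)} (hP : ∀ p ∈ P, StabGerm 3 (translate p f))
    {T : Set (Set (Fin 3 → ℂ))} (hT : T.Finite)
    (h : ∀ W ∈ T, IsConstr W ∧
      ((∃ (k : ℕ) (g : MvPolynomial (Fin k) ℂ), StabGerm k g ∧ TrivAlong f W g) ∨
        ∃ (k : ℕ) (w : Fin k → ℕ) (N m : ℕ), SqhAlongPow f W w N m))
    (hcov : ∀ p, eval p f = 0 → (∀ i, eval p (pderiv i f) = 0) →
      p ∈ P ∨ (∃ W ∈ T, p ∈ W) ∨ OrdMult f p ∨ YG.hessAt f p ≠ 0 ∨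
        Squarefree (homogeneousComponent 3 (translate p f)) ∨ MilnorLe f p 14 ∨ LctPt f p) :
    SmcGlob f := by
  refine SmcGlob.of_surfM hf h0 (T := T ∪ (fun p => {p}) '' (P : Set (Fin 3 → ℂ)))
    (hT.union (P.finite_toSet.image _)) ?_ fun p h1 h2 => ?_
  · rintro W (hW | ⟨p, hp, rfl⟩)
    · refine ⟨(h W hW).1, ?_⟩
      rcases (h W hW).2 with ⟨k, g, hg, ht⟩ | h1
      · exact MonoAlong.of_trivAlong hf ht fun h1 h2 => SmcLoc.of_stabGerm hg h1 h2
      · exact MonoAlong.of_sqh h1 hf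
    · exact ⟨isConstr_point p, MonoAlong.of_point hf fun h1 h2 =>
        SmcLoc.of_stabGerm (hP p hp) h1 h2⟩
  · rcases hcov p h1 h2 with h3 | ⟨W, hW, hpW⟩ | h3
    · exact Or.inl ⟨{p}, Or.inr ⟨p, h3, rfl⟩, rfl⟩
    · exact Or.inl ⟨W, Or.inl hW, hpW⟩
    · exact Or.inr h3

theorem StabGlob.coeff_zero {n : ℕ} {f : MvPolynomial (Fin n) ℂ} (h : StabGlob n f) :
    coeff 0 f = 0 := by
  induction h with
  | nondeg f h0 _ _ => exact h0
  | deg4 f h0 _ => exact h0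
  | deg34 f h0 _ => exact h0
  | surf f h0 _ _ _ _ _ _ => exact h0
  | sumG _ g h h0 _ _ => exact h0
  | sum3 g _ h h0 _ => exact h0
  | sum3q g h h0 _ _ => exact h0
  | sum4 g _ h h0 _ _ _ => exact h0
  | hom f d hd hh _ => exact coeff_zero_of_form hd hh
  | whom f a D H _ _ _ _ _ _ _ _ _ => exact coeff_zero_of_whom H
  | sing f h0 _ _ _ _ _ _ => exact h0
  | prod f g _ _ ihf _ => exact coeff_zero_prodSep g ihf
  | stab f _ ih => exact coeff_zero_of_stab ih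
  | equiv f g m hm h0 h _ _ => exact h0

theorem SmcGlob.of_stabGlob {n : ℕ} {f : MvPolynomial (Fin n) ℂ} (h : StabGlob n f)
    (hf : f ≠ 0) : SmcGlob f := by
  induction h with
  | nondeg f h0 h h' => exact fun s₀ _ hp => smc_initialPart hf h0 h h' s₀ hp
  | deg4 f h0 h => exact SmcGlob.of_deg4 hf h
  | deg34 f h0 h => exact SmcGlob.of_deg3_four hf h
  | sumG hn g h _ hh hc => exact SmcGlob.of_sumG hn hh hf hc
  | sum3 g hd h _ hh => exact SmcGlob.of_sumThree hd hh hf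
  | sum3q g h _ hh hc => exact SmcGlob.of_sum3S hh hf hc
  | sum4 g hd h _ hh P hc => exact SmcGlob.of_sum4 hd hh hf P hc
  | hom f d hd hh h => exact SmcGlob.of_hom hf hd hh h
  | whom f a D H hloc P T hT hcov h j hj hP =>
    refine SmcGlob.of_whom hf H (SmcLoc.of_stabGerm hloc hf (coeff_zero_of_whom H)) hT hcov
      (fun W hW => ⟨(h W hW).1, ?_⟩) (PP := StabGerm)
      (fun _ _ hg h1 h2 => SmcLoc.of_stabGerm hg h1 h2) j hj hP
    rcases (h W hW).2 with ⟨l, g, hg, ht⟩ | h1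
    · exact MonoAlong.of_trivAlong hf ht fun h1 h2 => SmcLoc.of_stabGerm hg h1 h2
    · exact MonoAlong.of_sqh h1 hf
  | sing f h0 P hP T hT h hcov => exact SmcGlob.of_singP hf h0 hP hT h hcov
  | surf f h0 P hP T hT h hcov => exact SmcGlob.of_surfP hf h0 hP hT h hcov
  | prod f g _ _ ihf ihg =>
    obtain ⟨hf', hg'⟩ := ne_zero_of_prodSep hf
    exact SmcGlob.prodSep hf' hg' (ihf hf') (ihg hg')
  | stab f h ih => exact SmcGlob.of_stab hf (coeff_zero_of_stab h.coeff_zero) (ih (stab_ne_zero f))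
  | equiv f g m hm _ h _ ih =>
    exact SmcGlob.of_polyEquivPow hm h (ih (ne_zero_of_polyEquivPow hm h hf))

/-- **The strong monodromy conjecture, local version**, for the class `StabLoc`. -/
theorem smc_stabLoc {n : ℕ} {f : MvPolynomial (Fin n) ℂ} (hf : f ≠ 0) (h0 : coeff 0 f = 0)
    (h : StabLoc n f) (s₀ : ℚ) (hs : s₀ < 0) (hp : IsPole (Zmot0 f) s₀) :
    IsLocalBernsteinSatoRoot f s₀ :=
  (roots_of_form fun b hb => SmcLoc.of_stabLoc h hf h0 s₀ hs hp b hb).2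

/-- **The strong monodromy conjecture, local version**, for the class `TanLoc`. -/
theorem smc_tanLoc {n : ℕ} {f : MvPolynomial (Fin n) ℂ} (hf : f ≠ 0) (h0 : coeff 0 f = 0)
    (h : TanLoc n f) (s₀ : ℚ) (hs : s₀ < 0) (hp : IsPole (Zmot0 f) s₀) :
    IsLocalBernsteinSatoRoot f s₀ :=
  (roots_of_form fun b hb => SmcLoc.of_tanLoc h hf h0 s₀ hs hp b hb).2

/-- **The strong monodromy conjecture, local version**, for the class `StabGerm`. -/
theorem smc_stabGerm {n : ℕ} {f : MvPolynomial (Fin n) ℂ} (hf : f ≠ 0) (h0 : coeff 0 f = 0)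
    (h : StabGerm n f) (s₀ : ℚ) (hs : s₀ < 0) (hp : IsPole (Zmot0 f) s₀) :
    IsLocalBernsteinSatoRoot f s₀ :=
  (roots_of_form fun b hb => SmcLoc.of_stabGerm h hf h0 s₀ hs hp b hb).2

/-- **The strong monodromy conjecture, global version**, for the class `StabGlob`. -/
theorem smc_stabGlob {n : ℕ} {f : MvPolynomial (Fin n) ℂ} (hf : f ≠ 0)
    (h : StabGlob n f) (s₀ : ℚ) (hs : s₀ < 0) (hp : IsPole (Zmot f) s₀) :
    IsBernsteinSatoRoot f s₀ :=
  SmcGlob.of_stabGlob h hf s₀ hs hp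

end MPb07157
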