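import Pool.Agent.Lib.MP_b07157_agS.SGraph
import Pool.Agent.Lib.MP_b07157_agM.StrSnc
import Pool.Agent.Lib.MP_b07157_agS4.SClass

/-!
# The final classes: the earlier classes, strict normal crossings, and re-embeddings

The classes `StabGerm` and `StabGlob` contain the classes `StableLoc` and `StableGlob`, and the class
`StabGlob` contains `Φ(x, g(x))` if it contains `Φ(x, z) + w (z - g(x))`.
-/

noncomputable section

namespace MPb07157

open MvPolynomial

theorem TanCone.tanConeV {k : ℕ} {f : MvPolynomial (Fin (k + 1)) ℂ} {d e : ℕ}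
    (h : TanCone f d e) : TanConeV f d e where
  hk := h.hk
  hd := h.hd
  he := h.he
  low := h.low
  mid := h.mid
  fin := h.fin
  sing := fun q hq => by
    rcases h.sing q hq with h1 | h1 | h1
    · exact Or.inl h1
    · exact Or.inr (Or.inl h1)
    · exact Or.inr (Or.inr (Or.inl h1))

theorem StabGerm.of_stableLoc {n : ℕ} {f : MvPolynomial (Fin n) ℂ} (h : StableLoc n f) :
    StabGerm n f := by
  induction h with
  | nondeg f h => exact StabGerm.loc f (StabLoc.nondeg f h)
  | sqh f w hw h => exact StabGerm.loc f (StabLoc.sqh f w hw h)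
  | susp f E u g e he hg h => exact StabGerm.loc f (StabLoc.susp f E u g e he hg h)
  | equiv f g m hm h _ ih => exact StabGerm.equiv f g m hm h ih
  | stab f _ ih => exact StabGerm.stab f ih
  | prod f g _ _ ihf ihg => exact StabGerm.prod f g ihf ihg
  | cone f d hd hh T hT hcov k g h _ hroot ih =>
    refine StabGerm.cone f d hd hh T ∅ (by rwa [Set.union_empty]) (fun p hp hp0 _ => ?_) k g h ih
      (fun W hW => absurd hW (Set.notMem_empty W)) (Or.inr (Or.inl hroot))
    obtain ⟨W, hW, hpW⟩ := hcov p hp hp0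
    exact Or.inl ⟨W, Or.inl hW, hpW⟩
  | arr a m => exact StabGerm.loc _ (StabLoc.arr a m)
  | tanCone f d e h hroot => exact StabGerm.tan f (TanLoc.tanCone f d e h.tanConeV hroot)

theorem StabGlob.of_stableGlob {n : ℕ} {f : MvPolynomial (Fin n) ℂ} (h : StableGlob n f) :
    StabGlob n f := by
  induction h with
  | nondeg f h0 h h' => exact StabGlob.nondeg f h0 h h'
  | strata f h0 T hT hcov h =>
    refine StabGlob.sing f h0 ∅ (fun p hp => absurd hp (Finset.notMem_empty p)) T hT
      (fun W hW => ?_) fun p hp _ => Or.inr (Or.inl (hcov p hp))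
    obtain ⟨h1, k, g, h2, h3⟩ := h W hW
    exact ⟨h1, Or.inl ⟨k, g, StabGerm.of_stableLoc h2, h3⟩⟩
  | equiv f g m hm h0 h _ ih => exact StabGlob.equiv f g m hm h0 h ih
  | stab f _ ih => exact StabGlob.stab f ih
  | prod f g _ _ ihf ihg => exact StabGlob.prod f g ihf ihg

theorem StabGlob.graph {n : ℕ} {Φ : MvPolynomial (Fin (n + 1)) ℂ} {g : MvPolynomial (Fin n) ℂ}
    (h : StabGlob (n + 2) (graphPoly Φ g)) (h0 : coeff 0 (substLast Φ g) = 0) :
    StabGlob n (substLast Φ g) :=
  StabGlob.stab _ (StabGlob.equiv _ _ 1 one_pos (coeff_zero_stab h0)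
    (polyEquivPow_graph Φ g) h)

end MPb07157
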